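import Pool.Agent.helper58.FI4E.Spec

/-! Row LIN of the project FI4E (MP_baa4d7_al): a commuting operator of prime order with rational traces is trivial on a small space. -/

set_option autoImplicit false

namespace Pool.Agent.FI4E

open Pool.Agent.helper58.DC Pool.Agent.DI Pool.Agent.GR Pool.Agent.OB Pool.Agent.DR Pool.Agent.FI
  Pool.Agent.FI3 Pool.Agent.FI4 Pool.Agent.FI4I

theorem LIN_rank {n : Type} [Fintype n] [DecidableEq n] (A : Matrix n n ℂ) (hA : A * A = A) :
    ∃ l : ℕ, Matrix.trace A = l ∧ (l = 0 → A = 0) := by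
  have h1 : IsIdempotentElem (Matrix.toLin' A) := by
    change Matrix.toLin' A * Matrix.toLin' A = Matrix.toLin' A
    rw [Module.End.mul_eq_comp, ← Matrix.toLin'_mul, hA]
  have h2 : LinearMap.IsProj (LinearMap.range (Matrix.toLin' A)) (Matrix.toLin' A) := by
    refine ⟨fun x => LinearMap.mem_range_self _ x, ?_⟩
    rintro x ⟨y, rfl⟩
    exact LinearMap.congr_fun h1 y
  have h3 := h2.trace
  refine ⟨Module.finrank ℂ (LinearMap.range (Matrix.toLin' A)), ?_, ?_⟩
  · rw [← h3, Matrix.trace_toLin'_eq]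
  · intro h0
    have h4 : LinearMap.range (Matrix.toLin' A) = ⊥ := Submodule.finrank_eq_zero.1 h0
    have h5 : Matrix.toLin' A = 0 := LinearMap.range_eq_bot.1 h4
    exact (LinearEquiv.map_eq_zero_iff Matrix.toLin').1 h5

theorem LIN_geom {n : Type} [Fintype n] [DecidableEq n] (G : Matrix n n ℂ) (q : ℕ) (hG : G ^ q = 1) :
    G * (∑ j ∈ Finset.range q, G ^ j) = ∑ j ∈ Finset.range q, G ^ j := by
  have h1 : ∑ j ∈ Finset.range (q + 1), G ^ j = ∑ j ∈ Finset.range q, G ^ j + G ^ q :=
    Finset.sum_range_succ _ _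
  have h2 : ∑ j ∈ Finset.range (q + 1), G ^ j = ∑ j ∈ Finset.range q, G ^ (j + 1) + G ^ 0 :=
    Finset.sum_range_succ' _ _
  rw [Finset.mul_sum]
  have h3 : ∑ j ∈ Finset.range q, G * G ^ j = ∑ j ∈ Finset.range q, G ^ (j + 1) :=
    Finset.sum_congr rfl fun j _ => by rw [pow_succ']
  rw [h3]
  rw [h1, hG, pow_zero] at h2
  exact (add_right_cancel h2).symm

theorem LIN_geom' {n : Type} [Fintype n] [DecidableEq n] (G : Matrix n n ℂ) (q : ℕ) (hG : G ^ q = 1) :
    (∑ j ∈ Finset.range q, G ^ j) * (∑ j ∈ Finset.range q, G ^ j) =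
      (q : ℂ) • ∑ j ∈ Finset.range q, G ^ j := by
  have h1 : ∀ j : ℕ, G ^ j * (∑ k ∈ Finset.range q, G ^ k) = ∑ k ∈ Finset.range q, G ^ k := by
    intro j
    induction j with
    | zero => rw [pow_zero, one_mul]
    | succ j ih => rw [pow_succ, mul_assoc, LIN_geom G q hG, ih]
  rw [Finset.sum_mul, Finset.sum_congr rfl fun j _ => h1 j, Finset.sum_const, Finset.card_range,
    Nat.cast_smul_eq_nsmul]

theorem LIN : LIN_stmt := by
  classical
  intro ι _ _ E P l m q hE hPE hPm hl hr hq hlq hqm hm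
  set F : Matrix ι ι ℂ := P ^ (m / q) with hFdef
  have hF : F ^ q = 1 := by rw [hFdef, ← pow_mul, Nat.div_mul_cancel hqm, hPm]
  have hcF : Commute E F := by
    have h1 : Commute E P := (show Commute P E from hPE).symm
    exact h1.pow_right _
  have hw : IsPrimitiveRoot (Complex.exp (2 * Real.pi * Complex.I / q)) q :=
    Complex.isPrimitiveRoot_exp q hq.ne_zero
  set w : ℂ := Complex.exp (2 * Real.pi * Complex.I / q) with hwdef
  have hq0 : (q : ℂ) ≠ 0 := Nat.cast_ne_zero.2 hq.ne_zero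
  choose r hr' using hr
  have hs : ∀ j : ℕ, Matrix.trace (E * F ^ j) = (r (m / q * j) : ℂ) := by
    intro j
    rw [hFdef, ← pow_mul]
    exact hr' _
  -- the projectors
  let S : ℕ → Matrix ι ι ℂ := fun i => ∑ j ∈ Finset.range q, (w ^ i • F) ^ j
  let Q : ℕ → Matrix ι ι ℂ := fun i => (q : ℂ)⁻¹ • (E * S i)
  have hGq : ∀ i : ℕ, (w ^ i • F) ^ q = 1 := by
    intro i
    rw [smul_pow, hF, ← pow_mul, mul_comm i q, pow_mul, hw.pow_eq_one, one_pow, one_smul]
  have hcS : ∀ i : ℕ, Commute E (S i) := by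
    intro i
    refine Commute.sum_right _ _ _ fun j _ => ?_
    exact (hcF.smul_right _).pow_right _
  have hQi : ∀ i : ℕ, Q i * Q i = Q i := by
    intro i
    change ((q : ℂ)⁻¹ • (E * S i)) * ((q : ℂ)⁻¹ • (E * S i)) = (q : ℂ)⁻¹ • (E * S i)
    have h1 : E * S i * (E * S i) = (q : ℂ) • (E * S i) := by
      have h2 : S i * S i = (q : ℂ) • S i := LIN_geom' _ q (hGq i)
      calc E * S i * (E * S i) = E * (S i * E) * S i := by simp only [mul_assoc]
        _ = E * (E * S i) * S i := by rw [(hcS i).eq]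
        _ = (E * E) * (S i * S i) := by simp only [mul_assoc]
        _ = (q : ℂ) • (E * S i) := by rw [hE, h2, Matrix.mul_smul]
    rw [Matrix.smul_mul, Matrix.mul_smul, h1, smul_smul, smul_smul]
    congr 1
    field_simp
  have hQtr : ∀ i : ℕ, (q : ℂ) * Matrix.trace (Q i) =
      ∑ j ∈ Finset.range q, (r (m / q * j) : ℂ) * (w ^ i) ^ j := by
    intro i
    change (q : ℂ) * Matrix.trace ((q : ℂ)⁻¹ • (E * S i)) = _
    rw [Matrix.trace_smul, smul_eq_mul, ← mul_assoc, mul_inv_cancel₀ hq0, one_mul]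
    change Matrix.trace (E * ∑ j ∈ Finset.range q, (w ^ i • F) ^ j) = _
    rw [Finset.mul_sum, Matrix.trace_sum]
    refine Finset.sum_congr rfl fun j _ => ?_
    rw [smul_pow, Matrix.mul_smul, Matrix.trace_smul, hs, smul_eq_mul, mul_comm]
  choose a ha ha0 using fun i => LIN_rank (Q i) (hQi i)
  -- the sum of the projectors
  have hsum : ∑ i ∈ Finset.range q, Q i = E := by
    change ∑ i ∈ Finset.range q, (q : ℂ)⁻¹ • (E * ∑ j ∈ Finset.range q, (w ^ i • F) ^ j) = E
    rw [← Finset.smul_sum, ← Finset.mul_sum, Finset.sum_comm]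
    have h1 : ∀ j ∈ Finset.range q, ∑ i ∈ Finset.range q, (w ^ i • F) ^ j =
        if j = 0 then (q : ℂ) • (1 : Matrix ι ι ℂ) else 0 := by
      intro j hj
      have h2 : ∑ i ∈ Finset.range q, (w ^ i • F) ^ j = (∑ i ∈ Finset.range q, (w ^ j) ^ i) • F ^ j := by
        rw [Finset.sum_smul]
        refine Finset.sum_congr rfl fun i _ => ?_
        rw [smul_pow]
        congr 1
        rw [← pow_mul, ← pow_mul, mul_comm i j]
      rw [h2]
      split_ifs with h0
      · subst h0
        simp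
      · have h3 : (w ^ j) ≠ 1 := by
          intro h4
          have h5 := (hw.pow_eq_one_iff_dvd j).1 h4
          have h6 := Nat.le_of_dvd (Nat.pos_of_ne_zero h0) h5
          have h7 := Finset.mem_range.1 hj
          omega
        have h4 : (w ^ j) ^ q = 1 := by
          rw [← pow_mul, mul_comm, pow_mul, hw.pow_eq_one, one_pow]
        have h5 : ∑ i ∈ Finset.range q, (w ^ j) ^ i = 0 := by
          have h6 := mul_geom_sum (w ^ j) q
          rw [h4, sub_self] at h6
          rcases mul_eq_zero.1 h6 with h7 | h7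
          · exact absurd (sub_eq_zero.1 h7) h3
          · exact h7
        rw [h5, zero_smul]
    rw [Finset.sum_congr rfl h1, Finset.sum_ite_eq', if_pos (Finset.mem_range.2 hq.pos),
      Matrix.mul_smul, mul_one, smul_smul, inv_mul_cancel₀ hq0, one_smul]
  -- all the numbers a i, i <> 0, are equal
  have hai : ∀ i : ℕ, 0 < i → i < q → a i = a 1 := by
    intro i hi0 hiq
    let R : Polynomial ℚ := ∑ j ∈ Finset.range q, Polynomial.C (r (m / q * j)) * Polynomial.X ^ j
      - Polynomial.C ((q : ℚ) * (a 1 : ℚ))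
    have hev : ∀ z : ℂ, Polynomial.aeval z R =
        ∑ j ∈ Finset.range q, (r (m / q * j) : ℂ) * z ^ j - (q : ℂ) * (a 1 : ℂ) := by
      intro z
      simp [R, map_sum]
    have hR1 : Polynomial.aeval w R = 0 := by
      rw [hev, ← ha 1, hQtr 1, pow_one, sub_self]
    have hdvd : Polynomial.cyclotomic q ℚ ∣ R := by
      rw [Polynomial.cyclotomic_eq_minpoly_rat hw hq.pos]
      exact minpoly.dvd ℚ w hR1
    have hwi : IsPrimitiveRoot (w ^ i) q := by
      refine hw.pow_of_coprime i ?_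
      exact ((Nat.Prime.coprime_iff_not_dvd hq).2 fun h => absurd (Nat.le_of_dvd hi0 h) (by omega)).symm
    have hRi : Polynomial.aeval (w ^ i) R = 0 := by
      obtain ⟨T, hT⟩ := hdvd
      rw [hT, map_mul]
      have h1 : Polynomial.aeval (w ^ i) (Polynomial.cyclotomic q ℚ) = 0 := by
        rw [Polynomial.cyclotomic_eq_minpoly_rat hwi hq.pos]
        exact minpoly.aeval ℚ _
      rw [h1, zero_mul]
    rw [hev, ← hQtr i, ha i, sub_eq_zero] at hRi
    have h2 := mul_left_cancel₀ hq0 hRi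
    exact_mod_cast h2
  have hal : (∑ i ∈ Finset.range q, a i : ℕ) = l := by
    have h1 : (∑ i ∈ Finset.range q, Matrix.trace (Q i)) = (l : ℂ) := by
      rw [← hl, ← hsum, Matrix.trace_sum]
    have h2 : ((∑ i ∈ Finset.range q, a i : ℕ) : ℂ) = (l : ℂ) := by
      rw [← h1, Nat.cast_sum]
      exact Finset.sum_congr rfl fun i _ => (ha i).symm
    exact_mod_cast h2
  have ha1 : a 1 = 0 := by
    by_contra h1
    have h2 : q - 1 ≤ l := by
      rw [← hal]
      have h3 : Finset.range q = insert 0 (Finset.Ico 1 q) := by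
        ext x
        simp only [Finset.mem_range, Finset.mem_insert, Finset.mem_Ico]
        have := hq.pos
        omega
      rw [h3, Finset.sum_insert (by simp)]
      have h4 : ∑ i ∈ Finset.Ico 1 q, 1 ≤ ∑ i ∈ Finset.Ico 1 q, a i := by
        refine Finset.sum_le_sum fun i hi => ?_
        rw [Finset.mem_Ico] at hi
        rw [hai i hi.1 hi.2]
        omega
      rw [Finset.sum_const, Nat.card_Ico, smul_eq_mul, mul_one] at h4
      omega
    omega
  have hQ0 : ∀ i : ℕ, 0 < i → i < q → Q i = 0 := fun i h1 h2 =>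
    ha0 i (by rw [hai i h1 h2, ha1])
  have hE0 : E = Q 0 := by
    rw [← hsum]
    refine Finset.sum_eq_single_of_mem 0 (Finset.mem_range.2 hq.pos) fun i hi hi0 => ?_
    exact hQ0 i (Nat.pos_of_ne_zero hi0) (Finset.mem_range.1 hi)
  have hF0 : F * Q 0 = Q 0 := by
    change F * ((q : ℂ)⁻¹ • (E * S 0)) = (q : ℂ)⁻¹ • (E * S 0)
    have h1 : F * S 0 = S 0 := by
      have h2 := LIN_geom (w ^ 0 • F) q (hGq 0)
      rw [pow_zero, one_smul] at h2
      change F * ∑ j ∈ Finset.range q, (w ^ 0 • F) ^ j = ∑ j ∈ Finset.range q, (w ^ 0 • F) ^ j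
      rw [pow_zero, one_smul]
      exact h2
    rw [Matrix.mul_smul, ← mul_assoc, ← hcF.eq, mul_assoc, h1]
  rw [hcF.eq]
  calc F * E = F * Q 0 := by rw [← hE0]
    _ = Q 0 := hF0
    _ = E := hE0.symm

end Pool.Agent.FI4E
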